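import Mathlib
import Pool.Agent.Helper71.TF.Per
import Pool.Agent.Helper71.QR.Fin
import Pool.Agent.Helper71.TG.Nn
import Pool.Graph.R_pool_sql_team_seeded_b0a926ef.Results.MP_725b61_nt.InverseOfPi

/-!
# `e`, `1/π`, Euler's constant and almost all subspaces of the space of one-dimensional periods

Let `𝒫₁` be the space of the periods of dimension one: all linear combinations with algebraic
coefficients of absolutely convergent integrals `∫_σ R(x) dx`, where `R` is a rational function of one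
variable with algebraic coefficients and `σ ⊆ ℝ` is given by polynomial inequalities with algebraic
coefficients (`periods1` in the starting library). It has infinite dimension over the field `ℚ̄` of the
algebraic numbers. Polynomials with algebraic coefficients in elements of `𝒫₁` are again periods (of
higher dimension), and already for these it is not known whether `e`, `1/π` or `γ` is among them.

Let `P` be any subspace of `𝒫₁` of finite dimension `R + 1`, which contains `1`, and let `b_1, …, b_R` be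
a basis modulo `1`. We show for almost all of its subspaces `Q ∋ 1` of dimension `n + 1`:

* if `R ≥ 2 n + 2 + e`, then `e` and `1/π` are not quotients of quadratic polynomials, with algebraic
  coefficients, in any number of elements of `Q`, and `γ` is such a quotient only if it is algebraic;
* if `2 R ≥ 3 n + 6 + 2 e` (so `Q` may have two thirds of the dimension of `P`), the same holds for the
  quotients of quadratic and linear polynomials, in particular for quadratic polynomials;
* if `2 R ≥ 3 n + 14 + 2 e`, then `1/π, 1/π², …, 1/π^J` are not quadratic polynomials in elements of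
  `Q + ℚ̄ π`.

Here `Q` is spanned by `1` and `y_i = ∑ x_ij b_j`, and almost all means: for all matrices `x`
over `ℚ̄` outside a proper algebraic subset, and for all but `O(H ^ (n R - e))` of the integral matrices
with entries of absolute value at most `H`, `e ≥ 1`. (The dimension count which works for
all `n`-tuples of elements of a space `Q`, `Pool.Agent.Results.MP_725b61_nt.FiniteCodimension`, needs a
space `P` whose dimension is quadratic in `n`.) There are versions for all degrees and for arbitrary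
given complex numbers.

The proof. `𝒫₁` is contained in the space of the linear forms in `1` and in logarithms of algebraic
numbers. Two theorems on relations of bounded degree between the elements of almost all spaces of
such linear forms, based on the hyperplane case of the linear subgroup theorem, are applied to the
relation `z B(ξ, Y) = A(ξ, Y)`: with coefficients in the space spanned by `z` and by the monomials in
the `ξ_i` (`Pool.Agent.Helper71.QR`), and as a relation of degree `max(D, D' + 1)` in all numbers, over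
the constants `z, ξ_i` (`Pool.Agent.Helper71.QC`).
-/

set_option autoImplicit false

open Module MvPolynomial

noncomputable section

namespace Pool.Agent.Results.MP_725b61_nt.AlmostAllSubspaces

open Pool.Agent.HP778.KZ (periods1 periods1_le)

/-- The field of algebraic numbers. -/
abbrev Qbar : IntermediateField ℚ ℂ := algebraicClosure ℚ ℂ

/-- `z` is the value at `v` of a quotient of polynomials with algebraic coefficients and of total
degrees at most `D` and `D'`. -/
def IsQuotient (D D' : ℕ) {σ : Type} (v : σ → ℂ) (z : ℂ) : Prop :=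
  ∃ A B : MvPolynomial σ Qbar, A.totalDegree ≤ D ∧ B.totalDegree ≤ D' ∧ aeval v B ≠ 0 ∧
    z * aeval v B = aeval v A

/-- the elements `∑ j, x i j * b j` -/
def elements {n R : ℕ} (b : Fin R → ℂ) (x : Fin n → Fin R → Qbar) : Fin n → ℂ :=
  fun i => ∑ j, (x i j : ℂ) * b j

/-- the space spanned over `ℚ̄` by `1`, by the `ξ_i` and by the elements `∑ j, x i j * b j` -/
def space {q n R : ℕ} (ξ : Fin q → ℂ) (b : Fin R → ℂ) (x : Fin n → Fin R → Qbar) :
    Submodule Qbar ℂ :=
  Submodule.span Qbar (insert 1 (Set.range ξ ∪ Set.range (elements b x)))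

/-- The property `Q` holds for all `n × R` matrices over `ℚ̄` outside a proper algebraic subset, and for
all but at most `κ H ^ (n R - e)` of the integral ones with entries of absolute value at most `H`. -/
def AlmostAll (e : ℕ) {n R : ℕ} (Q : (Fin n → Fin R → Qbar) → Prop) : Prop :=
  (∃ Ψ : MvPolynomial (Fin n × Fin R) Qbar, Ψ ≠ 0 ∧ ∀ x : Fin n → Fin R → Qbar,
    eval (fun p => x p.1 p.2) Ψ ≠ 0 → Q x) ∧
  ∃ κ : ℕ, ∀ H : ℕ, 1 ≤ H →
    Set.ncard {X : Fin n → Fin R → ℤ | (∀ i j, |X i j| ≤ H) ∧ ¬ Q (fun i j => (X i j : Qbar))} ≤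
      κ * H ^ (n * R - e)

/-- The numerical condition for the degrees `D, D'` and `q` given numbers. -/
def Condition (D D' q n R e : ℕ) : Prop :=
  (D' ≤ D ∧ ∀ m, 1 ≤ m → m ≤ n →
    ((D' + q).choose q + (D + q).choose q) * (m + D).choose D + e ≤ m * (R - n + 2) + 1) ∨
  (D' < D ∧ ∀ m, 1 ≤ m → m ≤ n → ∃ d ≤ m,
    (q + 1 + m + D).choose D + m * (n - m) + e ≤ d * (R + 2 - d) + 1)

/-- Euler's constant -/
def γ : ℂ := (Real.eulerMascheroniConstant : ℂ)

theorem box_finite (n R H : ℕ) : {X : Fin n → Fin R → ℤ | ∀ i j, |X i j| ≤ H}.Finite := by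
  refine Set.Finite.subset (Set.Finite.pi' (fun _ : Fin n => Set.Finite.pi'
    (fun _ : Fin R => (Set.finite_Icc (-(H : ℤ)) H)))) ?_
  rintro X hX i j
  exact abs_le.1 (hX i j)

theorem AlmostAll.mono {e n R : ℕ} {Q Q' : (Fin n → Fin R → Qbar) → Prop} (h : AlmostAll e Q)
    (hQ : ∀ x, Q x → Q' x) : AlmostAll e Q' := by
  obtain ⟨⟨Ψ, hΨ, h1⟩, κ, h2⟩ := h
  refine ⟨⟨Ψ, hΨ, fun x hx => hQ x (h1 x hx)⟩, κ, fun H hH => le_trans ?_ (h2 H hH)⟩
  refine Set.ncard_le_ncard ?_ ((box_finite n R H).subset fun X hX => hX.1)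
  rintro X ⟨h3, h4⟩
  exact ⟨h3, fun h5 => h4 (hQ _ h5)⟩

theorem AlmostAll.and {e n R : ℕ} {Q Q' : (Fin n → Fin R → Qbar) → Prop} (h : AlmostAll e Q)
    (h' : AlmostAll e Q') : AlmostAll e (fun x => Q x ∧ Q' x) := by
  obtain ⟨⟨Ψ, hΨ, h1⟩, κ, h2⟩ := h
  obtain ⟨⟨Ψ', hΨ', h1'⟩, κ', h2'⟩ := h'
  refine ⟨⟨Ψ * Ψ', mul_ne_zero hΨ hΨ', fun x hx => ?_⟩, κ + κ', fun H hH => ?_⟩
  · rw [map_mul] at hx
    exact ⟨h1 x (left_ne_zero_of_mul hx), h1' x (right_ne_zero_of_mul hx)⟩
  · rw [add_mul]
    refine le_trans ?_ (add_le_add (h2 H hH) (h2' H hH))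
    refine le_trans (Set.ncard_le_ncard ?_ ?_) (Set.ncard_union_le _ _)
    · rintro X ⟨h3, h4⟩
      by_cases h5 : Q (fun i j => (X i j : Qbar))
      · exact Or.inr ⟨h3, fun h6 => h4 ⟨h5, h6⟩⟩
      · exact Or.inl ⟨h3, h5⟩
    · exact (((box_finite n R H).subset fun X hX => hX.1)).union
        ((box_finite n R H).subset fun X hX => hX.1)

/-- relations of the elements of the empty family -/
theorem not_rel_zero {k E : Type} [Field k] [Field E] [Algebra k E] (W : Submodule k E) (D : ℕ)
    (z : Fin 0 → E) : ¬ Pool.Agent.Helper71.FC.Rel W D z := by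
  rintro ⟨P, hP0, -, hP⟩
  apply hP0
  rw [MvPolynomial.eq_C_of_isEmpty P] at hP ⊢
  rw [eval_C] at hP
  rw [hP, C_0]

theorem append_elim {E : Type} {m : ℕ} (z : Fin 0 → E) (u : Fin m → E) (i : Fin m) :
    (Fin.append z u : Fin (0 + m) → E) (finCongr (Nat.zero_add m).symm i) = u i := by
  have h : finCongr (Nat.zero_add m).symm i = Fin.natAdd 0 i := by
    ext
    simp
  rw [h, Fin.append_right]

/-- the empty family may be omitted -/
theorem rel_append {k E : Type} [Field k] [Field E] [Algebra k E] {W : Submodule k E} {D m : ℕ}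
    (z : Fin 0 → E) {u : Fin m → E} {P : MvPolynomial (Fin m) E} (hP0 : P ≠ 0)
    (hP : ∀ s, P.coeff s ∈ W) (hPD : P.totalDegree ≤ D) (hPu : eval u P = 0) :
    Pool.Agent.Helper71.FC.Rel W D (Fin.append z u : Fin (0 + m) → E) := by
  have hinj : Function.Injective (finCongr (Nat.zero_add m).symm) := Equiv.injective _
  refine ⟨rename (finCongr (Nat.zero_add m).symm) P, ?_, ⟨fun s => ?_, ?_⟩, ?_⟩
  · intro h
    exact hP0 (rename_injective _ hinj (by rw [h, map_zero]))
  · have h1 : s = Finsupp.mapDomain (finCongr (Nat.zero_add m).symm)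
        (Finsupp.mapDomain (finCongr (Nat.zero_add m)) s) := by
      rw [← Finsupp.mapDomain_comp]
      have h2 : ((finCongr (Nat.zero_add m).symm : Fin m → Fin (0 + m)) ∘
          (finCongr (Nat.zero_add m) : Fin (0 + m) → Fin m)) = id := by
        funext i
        simp
      rw [h2, Finsupp.mapDomain_id]
    rw [h1, coeff_rename_mapDomain _ hinj]
    exact hP _
  · exact (totalDegree_rename_le _ _).trans hPD
  · rw [eval_rename]
    have h1 : (Fin.append z u : Fin (0 + m) → E) ∘ (finCongr (Nat.zero_add m).symm) = u := by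
      funext i
      exact append_elim z u i
    rw [h1, hPu]

/-- **No new numbers from almost all spaces.** -/
theorem main {n R : ℕ} (hnR : n ≤ R) (b : Fin R → ℂ) (hb : ∀ i, b i ∈ periods1)
    (hli : LinearIndependent Qbar (Fin.cons 1 b : Fin (R + 1) → ℂ)) {D D' q e : ℕ} (hDD : D' ≤ D)
    (ξ : Fin q → ℂ) (z : ℂ) (he1 : 1 ≤ e) (he : e ≤ n * R)
    (h : ∀ m, 1 ≤ m → m ≤ n → ((D' + q).choose q + (D + q).choose q) * (m + D).choose D + e ≤
      m * (R - n + 2) + 1) :
    AlmostAll e (fun x : Fin n → Fin R → Qbar => ∀ (N : ℕ) (w : Fin N → ℂ),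
      (∀ i, w i ∈ space ξ b x) → IsQuotient D D' (Sum.elim ξ w) z → IsQuotient D D' ξ z) := by
  classical
  have := Pool.Agent.Y787.uncountable_complex
  have hinf : Infinite Qbar := CharZero.infinite _
  have hL := Pool.Agent.Y787.hypC_complex.hyp
  have hw : Pool.Agent.Y787.AS.Wts' Qbar ℂ := Pool.Agent.Y787.AS.wts_pt
  set W := Pool.Agent.Helper71.TF.quoW (k := Qbar) ξ ![z] D D' with hWdef
  have hWf : Module.Finite Qbar W := Pool.Agent.Helper71.TF.quoW_finite ξ ![z] D D'
  have hWr : finrank Qbar W ≤ (D' + q).choose q + (D + q).choose q := by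
    have h1 : finrank Qbar (Pool.Agent.Helper71.TF.quoW (k := Qbar) ξ ![z] D D') ≤
      1 * (D' + q).choose q + (D + q).choose q :=
        Pool.Agent.Helper71.TF.finrank_quoW (k := Qbar) ξ ![z] D D'
    rwa [one_mul] at h1
  have hbL' : ∀ i, b i ∈ Pool.Agent.H301R2.SSE.Lt := by
    intro i
    have h1 := periods1_le (hb i)
    refine (Submodule.span_le.2 ?_) h1
    rintro x (hx | hx)
    · rw [hx]
      exact Pool.Agent.Y787.hypC_complex.one
    · exact Pool.Agent.H301R2.SSE.Lt_log hx
  have hbL : ∀ s, (Fin.append (Fin.cons 1 (![] : Fin 0 → ℂ) : Fin (0 + 1) → ℂ) b) s ∈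
      Pool.Agent.H301R2.SSE.Lt := by
    intro s
    refine Fin.addCases (fun a => ?_) (fun s => ?_) s
    · rw [Fin.append_left]
      refine Fin.cases ?_ (fun a => a.elim0) a
      exact Pool.Agent.Y787.hypC_complex.one
    · rw [Fin.append_right]
      exact hbL' s
  have hli0 : LinearIndependent Qbar
      (Fin.cons 1 (Fin.append (![] : Fin 0 → ℂ) b) : Fin (0 + R + 1) → ℂ) := by
    rw [Pool.Agent.Helper71.QR.li_append]
    intro t c g hg
    rw [Fintype.linearIndependent_iff] at hli
    have h1 := hli (Fin.cons t g) (by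
      rw [Fin.sum_univ_succ]
      simp only [Fin.cons_zero, Fin.cons_succ, Algebra.smul_def, mul_one]
      rw [← hg]
      simp)
    refine ⟨h1 0, ?_, ?_⟩
    · funext a
      exact a.elim0
    · funext i
      have := h1 i.succ
      rwa [Fin.cons_succ] at this
  have hb' := Pool.Agent.Helper71.QR.li_shift hli0
  have hnum : Pool.Agent.Helper71.QR.NumZ (finrank Qbar W) D n n R 0 (n * R + 1 - e) := by
    refine Pool.Agent.Helper71.QR.num_gen hnR he fun m hm0 hm1 _ => ?_
    have h1 := h m hm0 hm1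
    have h2 : (D + (0 + m)).choose (0 + m) = (m + D).choose D := by
      rw [Nat.zero_add, add_comm D m, Nat.choose_symm_add]
    rw [h2, Nat.add_zero]
    refine le_trans ?_ h1
    exact Nat.add_le_add_right (Nat.mul_le_mul_right _ hWr) _
  have hAA := Pool.Agent.Helper71.QR.aa_of hL hw he hnum he1 ![] b hbL hb'
    (not_rel_zero W D ![])
  have hAA' : AlmostAll e (fun x : Fin n → Fin R → Qbar =>
      Pool.Agent.Helper71.QR.NoRelZ W D n ![] (elements b x)) := hAA
  refine hAA'.mono fun x hx => ?_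
  rintro N w hw' ⟨A, B, hA, hB, hB0, hAB⟩
  -- the decomposition of the elements
  have hdec : ∀ i, ∃ y₀ ∈ Submodule.span Qbar (insert 1 (Set.range (elements b x))),
      w i - y₀ ∈ Pool.Agent.Helper71.ET.Aff Qbar ξ := by
    intro i
    obtain ⟨t, c, u, hu⟩ := Pool.Agent.Helper71.QR.mem_span_three (hw' i)
    refine ⟨∑ j, algebraMap Qbar ℂ (u j) * elements b x j, ?_, ?_⟩
    · refine Submodule.sum_mem _ fun j _ => ?_
      rw [← Algebra.smul_def]
      exact Submodule.smul_mem _ _ (Submodule.subset_span (Or.inr ⟨j, rfl⟩))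
    · rw [hu, add_sub_cancel_right]
      refine Submodule.add_mem _ ?_ (Submodule.sum_mem _ fun a _ => ?_)
      · rw [← mul_one (algebraMap Qbar ℂ t), ← Algebra.smul_def]
        exact Submodule.smul_mem _ _ (Pool.Agent.Helper71.ET.Aff.one ξ)
      · rw [← Algebra.smul_def]
        exact Submodule.smul_mem _ _ (Pool.Agent.Helper71.ET.Aff.mem ξ a)
  choose y₀ hy₀ hw₀ using hdec
  obtain ⟨g, hg, hg1, hg2⟩ := Pool.Agent.Helper71.TF.no_new (k := Qbar) (z := ![z]) (y := w)
    (y₀ := y₀) hDD hw₀ (by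
      intro m _ u hu hli' P hP hPD hPu
      by_contra hP0
      have humem : ∀ j, u j ∈ Submodule.span Qbar (insert 1 (Set.range (elements b x))) := by
        intro j
        obtain ⟨i, hi⟩ := hu j
        rw [hi]
        exact hy₀ i
      have hmn : m ≤ n := by
        have hmem : ∀ j : Fin (m + 1), (Fin.cons 1 u : Fin (m + 1) → ℂ) j ∈
            Submodule.span Qbar (Set.range (Fin.cons 1 (elements b x) : Fin (n + 1) → ℂ)) := by
          rw [Fin.range_cons]
          intro j
          refine Fin.cases ?_ (fun j => ?_) j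
          · exact Submodule.subset_span (Or.inl rfl)
          · exact humem j
        have h1 : Set.range (Fin.cons 1 u : Fin (m + 1) → ℂ) ⊆
            Submodule.span Qbar (Set.range (Fin.cons 1 (elements b x) : Fin (n + 1) → ℂ)) := by
          rintro _ ⟨j, rfl⟩
          exact hmem j
        have hfin : Module.Finite Qbar (Submodule.span Qbar
            (Set.range (Fin.cons 1 (elements b x) : Fin (n + 1) → ℂ))) :=
          FiniteDimensional.span_of_finite Qbar (Set.finite_range _)
        have h2 := finrank_span_eq_card hli'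
        have h3 : finrank Qbar (Submodule.span Qbar (Set.range (Fin.cons 1 u : Fin (m + 1) → ℂ))) ≤
            finrank Qbar (Submodule.span Qbar
              (Set.range (Fin.cons 1 (elements b x) : Fin (n + 1) → ℂ))) :=
          Submodule.finrank_mono (Submodule.span_le.2 h1)
        have h4 := finrank_range_le_card (R := Qbar) (Fin.cons 1 (elements b x) : Fin (n + 1) → ℂ)
        rw [Fintype.card_fin] at h2 h4
        have h5 : Set.finrank Qbar (Set.range (Fin.cons 1 (elements b x) : Fin (n + 1) → ℂ)) =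
          finrank Qbar (Submodule.span Qbar
              (Set.range (Fin.cons 1 (elements b x) : Fin (n + 1) → ℂ))) := rfl
        omega
      refine hx m hmn u (fun i => ?_) ?_ (rel_append _ hP0 hP hPD hPu)
      · refine Submodule.span_mono ?_ (humem i)
        exact Set.insert_subset_insert Set.subset_union_right
      · rw [Pool.Agent.Helper71.QR.li_append]
        intro t c g hg
        rw [Fintype.linearIndependent_iff] at hli'
        have h1 := hli' (Fin.cons t g) (by
          rw [Fin.sum_univ_succ]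
          simp only [Fin.cons_zero, Fin.cons_succ, Algebra.smul_def, mul_one]
          rw [← hg]
          simp)
        refine ⟨h1 0, ?_, ?_⟩
        · funext a
          exact a.elim0
        · funext i
          have := h1 i.succ
          rwa [Fin.cons_succ] at this) 0 A B hA hB hB0 hAB
  have hG1 : ∀ p, (Sum.elim X g p : MvPolynomial (Fin q) Qbar).totalDegree ≤ 1 := by
    rintro (p | i)
    · simp only [Sum.elim_inl]
      rw [totalDegree_X]
    · exact hg i
  exact ⟨bind₁ (Sum.elim X g) A, bind₁ (Sum.elim X g) B,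
    (Pool.Agent.W245.EB.totalDegree_bind_le _ hG1 A).trans hA,
    (Pool.Agent.W245.EB.totalDegree_bind_le _ hG1 B).trans hB, hg1, hg2⟩

/-- **No new numbers from almost all spaces, second form.** -/
theorem main2 {n R : ℕ} (hnR : n ≤ R) (b : Fin R → ℂ) (hb : ∀ i, b i ∈ periods1)
    (hli : LinearIndependent Qbar (Fin.cons 1 b : Fin (R + 1) → ℂ)) {D D' q e : ℕ} (hDD : D' < D)
    (ξ : Fin q → ℂ) (z : ℂ) (he1 : 1 ≤ e) (he : e ≤ n * R)
    (h : Pool.Agent.Helper71.TG.Cond D n R (q + 1) e) :
    AlmostAll e (fun x : Fin n → Fin R → Qbar => ∀ (N : ℕ) (w : Fin N → ℂ),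
      (∀ i, w i ∈ space ξ b x) → IsQuotient D D' (Sum.elim ξ w) z → IsQuotient D D' ξ z) := by
  classical
  have hinf : Infinite Qbar := CharZero.infinite _
  have hbL : ∀ i, b i ∈ Pool.Agent.H301R2.SSE.Lt := by
    intro i
    have h1 := periods1_le (hb i)
    refine (Submodule.span_le.2 ?_) h1
    rintro x (hx | hx)
    · rw [hx]
      exact Pool.Agent.Y787.hypC_complex.one
    · exact Pool.Agent.H301R2.SSE.Lt_log hx
  have hAA := Pool.Agent.Helper71.TG.otr_aa (q + 1) n R D e hnR he1 he h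
    (Fin.cons z ξ : Fin (q + 1) → ℂ) b hbL hli
  have hAA' : AlmostAll e (fun x : Fin n → Fin R → Qbar => ∀ (r : ℕ) (y' : Fin r → ℂ),
      (∀ i, y' i ∈ Submodule.span Qbar (insert 1 (Set.range (elements b x)))) →
      LinearIndependent Qbar (Fin.cons 1 y' : Fin (r + 1) → ℂ) →
      Pool.Agent.Helper71.ET.OTR Qbar D (Fin.cons z ξ : Fin (q + 1) → ℂ) y') := hAA
  refine hAA'.mono fun x hx => ?_
  rintro N w hw' ⟨A, B, hA, hB, hB0, hAB⟩
  have hdec : ∀ i, ∃ y₀ ∈ Submodule.span Qbar (insert 1 (Set.range (elements b x))),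
      w i - y₀ ∈ Pool.Agent.Helper71.ET.Aff Qbar ξ := by
    intro i
    obtain ⟨t, c, u, hu⟩ := Pool.Agent.Helper71.QR.mem_span_three (hw' i)
    refine ⟨∑ j, algebraMap Qbar ℂ (u j) * elements b x j, ?_, ?_⟩
    · refine Submodule.sum_mem _ fun j _ => ?_
      rw [← Algebra.smul_def]
      exact Submodule.smul_mem _ _ (Submodule.subset_span (Or.inr ⟨j, rfl⟩))
    · rw [hu, add_sub_cancel_right]
      refine Submodule.add_mem _ ?_ (Submodule.sum_mem _ fun a _ => ?_)
      · rw [← mul_one (algebraMap Qbar ℂ t), ← Algebra.smul_def]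
        exact Submodule.smul_mem _ _ (Pool.Agent.Helper71.ET.Aff.one ξ)
      · rw [← Algebra.smul_def]
        exact Submodule.smul_mem _ _ (Pool.Agent.Helper71.ET.Aff.mem ξ a)
  choose y₀ hy₀ hw₀ using hdec
  obtain ⟨g, hg, hg1, hg2⟩ := Pool.Agent.Helper71.TG.no_new2 (k := Qbar) (z := z) (y := w)
    (y₀ := y₀) hDD hw₀ (by
      intro m _ u hu hli'
      refine hx m u (fun j => ?_) hli'
      obtain ⟨i, hi⟩ := hu j
      rw [hi]
      exact hy₀ i) A B hA hB hB0 hAB
  have hG1 : ∀ p, (Sum.elim X g p : MvPolynomial (Fin q) Qbar).totalDegree ≤ 1 := by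
    rintro (p | i)
    · simp only [Sum.elim_inl]
      rw [totalDegree_X]
    · exact hg i
  exact ⟨bind₁ (Sum.elim X g) A, bind₁ (Sum.elim X g) B,
    (Pool.Agent.W245.EB.totalDegree_bind_le _ hG1 A).trans hA,
    (Pool.Agent.W245.EB.totalDegree_bind_le _ hG1 B).trans hB, hg1, hg2⟩

theorem AlmostAll.all {e n R : ℕ} (J : ℕ) {Q : ℕ → (Fin n → Fin R → Qbar) → Prop}
    (h : ∀ b, 1 ≤ b → AlmostAll e (Q b)) : AlmostAll e (fun x => ∀ b, 1 ≤ b → b ≤ J → Q b x) := by
  induction J with
  | zero =>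
    refine ⟨⟨1, one_ne_zero, fun x _ b h1 h2 => by omega⟩, 0, fun H _ => ?_⟩
    rw [zero_mul, Nat.le_zero, Set.ncard_eq_zero ((box_finite n R H).subset fun X hX => hX.1)]
    ext X
    refine ⟨fun hX => ?_, fun hX => absurd hX (Set.notMem_empty X)⟩
    exact absurd (fun b h1 h2 => by omega) hX.2
  | succ J ih =>
    refine (ih.and (h (J + 1) (by omega))).mono fun x hx b h1 h2 => ?_
    rcases Nat.lt_or_ge J b with h3 | h3
    · obtain rfl : b = J + 1 := by omega
      exact hx.2
    · exact hx.1 b h1 h3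

theorem IsQuotient.inr {D D' : ℕ} {σ τ : Type} {ξ : σ → ℂ} {y : τ → ℂ} {z : ℂ}
    (h : IsQuotient D D' y z) : IsQuotient D D' (Sum.elim ξ y) z := by
  obtain ⟨A, B, hA, hB, hB0, h⟩ := h
  have key : ∀ P : MvPolynomial τ Qbar, aeval (Sum.elim ξ y) (rename Sum.inr P) = aeval y P :=
    fun P => by
      rw [aeval_rename]
      rfl
  exact ⟨rename Sum.inr A, rename Sum.inr B, (totalDegree_rename_le _ _).trans hA,
    (totalDegree_rename_le _ _).trans hB, by rw [key]; exact hB0, by rw [key, key]; exact h⟩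

/-- quotients without variables -/
theorem alg_of_empty {D D' : ℕ} {z : ℂ} (h : IsQuotient D D' (Fin.elim0 : Fin 0 → ℂ) z) :
    IsAlgebraic ℚ z := by
  obtain ⟨A, B, -, -, hB0, h⟩ := h
  obtain ⟨a, rfl⟩ := MvPolynomial.C_surjective (Fin 0) A
  obtain ⟨b, rfl⟩ := MvPolynomial.C_surjective (Fin 0) B
  rw [aeval_C] at hB0
  rw [aeval_C, aeval_C] at h
  have h1 : z = algebraMap Qbar ℂ (a / b) := by
    rw [map_div₀]
    exact (eq_div_iff hB0).2 h
  rw [h1]
  exact mem_algebraicClosure_iff.1 (a / b).2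

/-- negative powers of `π` are not polynomials in `π` -/
theorem pi_pow {D : ℕ} {b : ℕ} (hb : b ≠ 0)
    (h : IsQuotient D 0 (fun _ : Fin 1 => (Real.pi : ℂ)) (1 / (Real.pi : ℂ) ^ b)) : False := by
  have hq : Algebra.IsAlgebraic ℚ Qbar := algebraicClosure.isAlgebraic ℚ ℂ
  have hind : AlgebraicIndependent Qbar (fun _ : Fin 1 => (Real.pi : ℂ)) := by
    rw [algebraicIndependent_unique_type_iff]
    intro halg
    exact Pool.Agent.H340R2.LW.transcendental_pi_complex (halg.restrictScalars ℚ)
  have hπ : (Real.pi : ℂ) ≠ 0 := by exact_mod_cast Real.pi_ne_zero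
  obtain ⟨A, B, -, hB, hB0, h⟩ := h
  obtain ⟨c, rfl⟩ : ∃ c, B = C c := ⟨_, (totalDegree_eq_zero_iff_eq_C.1 (Nat.le_zero.1 hB))⟩
  have h1 : X 0 ^ b * A - C c = 0 := by
    refine (injective_iff_map_eq_zero _).1 hind _ ?_
    rw [one_div] at h
    rw [map_sub, map_mul, map_pow, aeval_X, ← h, mul_inv_cancel_left₀ (pow_ne_zero _ hπ), sub_self]
  have h2 := congrArg (aeval (fun _ : Fin 1 => (0 : Qbar))) h1
  rw [map_sub, map_mul, map_pow, aeval_X, aeval_C, map_zero, zero_pow hb, zero_mul, zero_sub] at h2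
  apply hB0
  rw [aeval_C]
  have h3 : c = 0 := neg_eq_zero.1 h2
  rw [h3, map_zero]

/-- **Transcendental numbers and rational functions.** -/
theorem main_trans {n R : ℕ} (hnR : n ≤ R) (b : Fin R → ℂ) (hb : ∀ i, b i ∈ periods1)
    (hli : LinearIndependent Qbar (Fin.cons 1 b : Fin (R + 1) → ℂ)) {D e : ℕ}
    (z : ℂ) (he1 : 1 ≤ e) (he : e ≤ n * R)
    (h : ∀ m, 1 ≤ m → m ≤ n → 2 * (m + D).choose D + e ≤ m * (R - n + 2) + 1) :
    AlmostAll e (fun x : Fin n → Fin R → Qbar => ∀ (N : ℕ) (w : Fin N → ℂ),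
      (∀ i, w i ∈ space ![] b x) → IsQuotient D D w z → IsAlgebraic ℚ z) := by
  refine (main hnR b hb hli (D := D) (D' := D) (q := 0) le_rfl ![] z he1 he fun m h1 h2 => ?_).mono
    fun x hx N w hw hq => ?_
  · simpa using h m h1 h2
  · have h3 := hx N w hw hq.inr
    have h4 : (![] : Fin 0 → ℂ) = Fin.elim0 := funext fun i => i.elim0
    rw [h4] at h3
    exact alg_of_empty h3

/-- **Transcendental numbers, second form.** -/
theorem main_trans2 {n R : ℕ} (hnR : n ≤ R) (b : Fin R → ℂ) (hb : ∀ i, b i ∈ periods1)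
    (hli : LinearIndependent Qbar (Fin.cons 1 b : Fin (R + 1) → ℂ)) {D D' e : ℕ} (hDD : D' < D)
    (z : ℂ) (he1 : 1 ≤ e) (he : e ≤ n * R) (h : Pool.Agent.Helper71.TG.Cond D n R 1 e) :
    AlmostAll e (fun x : Fin n → Fin R → Qbar => ∀ (N : ℕ) (w : Fin N → ℂ),
      (∀ i, w i ∈ space ![] b x) → IsQuotient D D' w z → IsAlgebraic ℚ z) := by
  refine (main2 hnR b hb hli (D := D) (D' := D') (q := 0) hDD ![] z he1 he h).mono
    fun x hx N w hw hq => ?_
  have h3 := hx N w hw hq.inr
  have h4 : (![] : Fin 0 → ℂ) = Fin.elim0 := funext fun i => i.elim0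
  rw [h4] at h3
  exact alg_of_empty h3

theorem pi_inv_alg (h : IsAlgebraic ℚ (1 / (Real.pi : ℂ))) : False := by
  have h5 : IsAlgebraic ℚ (Real.pi : ℂ) := by
    have h6 := h.inv
    rwa [one_div, inv_inv] at h6
  exact Pool.Agent.H340R2.LW.transcendental_pi_complex h5

theorem cond_two {n R e m : ℕ} (hR : 2 * n + 2 + e ≤ R) (h1 : 1 ≤ m) (h2 : m ≤ n) :
    2 * (m + 2).choose 2 + e ≤ m * (R - n + 2) + 1 := by
  have h3 : 2 * (m + 2).choose 2 = (m + 2) * (m + 1) := by
    have h4 := Pool.Agent.Helper71.QR.choose_two' m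
    rwa [add_comm 2 m, Nat.choose_symm_add] at h4
  rw [h3]
  obtain ⟨c, rfl⟩ : ∃ c, R = n + (m + 2 + e + c) := ⟨R - n - (m + 2 + e), by omega⟩
  have h5 : n + (m + 2 + e + c) - n = m + 2 + e + c := by omega
  rw [h5]
  obtain ⟨m', rfl⟩ : ∃ m', m = m' + 1 := ⟨m - 1, by omega⟩
  nlinarith [Nat.zero_le (m' * e), Nat.zero_le (m' * c), Nat.zero_le c]

/-- **Main result.** -/
theorem result (n R : ℕ) (hn : 1 ≤ n) (hnR : n ≤ R) (b : Fin R → ℂ) (hb : ∀ i, b i ∈ periods1)
    (hli : LinearIndependent Qbar (Fin.cons 1 b : Fin (R + 1) → ℂ)) :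
    -- the numbers `e`, `1/π`, `γ` and quotients of quadratic polynomials
    (∀ e : ℕ, 1 ≤ e → 2 * n + 2 + e ≤ R →
      AlmostAll e (fun x : Fin n → Fin R → Qbar => ∀ (N : ℕ) (w : Fin N → ℂ),
        (∀ i, w i ∈ space ![] b x) →
          ¬ IsQuotient 2 2 w (Complex.exp 1) ∧ ¬ IsQuotient 2 2 w (1 / (Real.pi : ℂ)) ∧
          (IsQuotient 2 2 w γ → IsAlgebraic ℚ γ))) ∧
    -- quadratic polynomials and quotients of quadratic and linear polynomials
    (∀ e : ℕ, 1 ≤ e → 3 * n + 6 + 2 * e ≤ 2 * R →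
      AlmostAll e (fun x : Fin n → Fin R → Qbar => ∀ (N : ℕ) (w : Fin N → ℂ),
        (∀ i, w i ∈ space ![] b x) →
          ¬ IsQuotient 2 1 w (Complex.exp 1) ∧ ¬ IsQuotient 2 1 w (1 / (Real.pi : ℂ)) ∧
          (IsQuotient 2 1 w γ → IsAlgebraic ℚ γ))) ∧
    -- quadratic polynomials in `π` and other one-dimensional periods
    (∀ e J : ℕ, 1 ≤ e → 3 * n + 14 + 2 * e ≤ 2 * R →
      AlmostAll e (fun x : Fin n → Fin R → Qbar => ∀ a, 1 ≤ a → a ≤ J →
        ∀ (N : ℕ) (w : Fin N → ℂ), (∀ i, w i ∈ space ![(Real.pi : ℂ)] b x) →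
          ¬ IsQuotient 2 0 w (1 / (Real.pi : ℂ) ^ a))) ∧
    -- arbitrary degrees and numbers
    (∀ (D D' q e : ℕ) (ξ : Fin q → ℂ) (z : ℂ), 1 ≤ e → e ≤ n * R → Condition D D' q n R e →
      AlmostAll e (fun x : Fin n → Fin R → Qbar => ∀ (N : ℕ) (w : Fin N → ℂ),
        (∀ i, w i ∈ space ξ b x) → IsQuotient D D' (Sum.elim ξ w) z → IsQuotient D D' ξ z)) := by
  have hRn : R ≤ n * R := Nat.le_mul_of_pos_left _ hn
  refine ⟨fun e he1 hR => ?_, fun e he1 hR => ?_, fun e J he1 hR => ?_,
    fun D D' q e ξ z he1 he h => ?_⟩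
  · have he : e ≤ n * R := by omega
    have h1 := main_trans hnR b hb hli (D := 2) (Complex.exp 1) he1 he
      fun m h1 h2 => cond_two hR h1 h2
    have h2 := main_trans hnR b hb hli (D := 2) (1 / (Real.pi : ℂ)) he1 he
      fun m h1 h2 => cond_two hR h1 h2
    have h3 := main_trans hnR b hb hli (D := 2) γ he1 he fun m h1 h2 => cond_two hR h1 h2
    refine ((h1.and h2).and h3).mono fun x hx N w hw => ⟨fun h => ?_, fun h => ?_, fun h => ?_⟩
    · exact Pool.Agent.H340R2.LW.transcendental_exp_one_complex (hx.1.1 N w hw h)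
    · exact pi_inv_alg (hx.1.2 N w hw h)
    · exact hx.2 N w hw h
  · have he : e ≤ n * R := by omega
    have hc : Pool.Agent.Helper71.TG.Cond 2 n R 1 e :=
      Pool.Agent.Helper71.TG.cond_two (by omega)
    have h1 := main_trans2 hnR b hb hli (D := 2) (D' := 1) (by omega) (Complex.exp 1) he1 he hc
    have h2 := main_trans2 hnR b hb hli (D := 2) (D' := 1) (by omega) (1 / (Real.pi : ℂ)) he1 he hc
    have h3 := main_trans2 hnR b hb hli (D := 2) (D' := 1) (by omega) γ he1 he hc
    refine ((h1.and h2).and h3).mono fun x hx N w hw => ⟨fun h => ?_, fun h => ?_, fun h => ?_⟩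
    · exact Pool.Agent.H340R2.LW.transcendental_exp_one_complex (hx.1.1 N w hw h)
    · exact pi_inv_alg (hx.1.2 N w hw h)
    · exact hx.2 N w hw h
  · have he : e ≤ n * R := by omega
    have hc : Pool.Agent.Helper71.TG.Cond 2 n R (1 + 1) e :=
      Pool.Agent.Helper71.TG.cond_two (by omega)
    refine AlmostAll.all J fun a ha => ?_
    refine (main2 hnR b hb hli (D := 2) (D' := 0) (q := 1) (by omega) ![(Real.pi : ℂ)]
      (1 / (Real.pi : ℂ) ^ a) he1 he hc).mono fun x hx N w hw h => ?_
    have h4 := hx N w hw h.inr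
    have h5 : (![(Real.pi : ℂ)] : Fin 1 → ℂ) = fun _ => (Real.pi : ℂ) := by
      funext i
      simp
    rw [h5] at h4
    exact pi_pow (by omega) h4
  · rcases h with ⟨hDD, h⟩ | ⟨hDD, h⟩
    · exact main hnR b hb hli hDD ξ z he1 he h
    · exact main2 hnR b hb hli hDD ξ z he1 he h

end Pool.Agent.Results.MP_725b61_nt.AlmostAllSubspaces
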