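import Mathlib
import Pool.Agent.Helper71.TF.Per
import Pool.Graph.R_pool_sql_team_seeded_b0a926ef.Results.MP_725b61_nt.InverseOfPi

/-!
# `e`, `1/π`, Euler's constant and rational functions of periods of dimension one

Let `𝒫₁` be the space of the periods of dimension one: all linear combinations with algebraic
coefficients of absolutely convergent integrals `∫_σ R(x) dx`, where `R` is a rational function of one
variable with algebraic coefficients and `σ ⊆ ℝ` is given by polynomial inequalities with algebraic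
coefficients (`periods1` in the starting library). It has infinite dimension over the field `ℚ̄` of
algebraic numbers. Polynomials with algebraic coefficients in elements of `𝒫₁` and in arbitrary periods
`ξ_1, …, ξ_q` are again periods (of higher dimension). Already for the polynomials in elements of `𝒫₁`
it is not known whether `e`, `1/π` or `γ` is among them. We show that no new numbers arise if the elements
are taken from a certain subspace of **finite codimension** of `𝒫₁`, in the following sense.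

Let `z_1, …, z_r` (for instance `e, 1/π, γ`) and `ξ_1, …, ξ_q` (for instance the periods of some
varieties) be arbitrary complex numbers, `D ≥ 2`, `D' ≤ D` and `n` natural numbers. There is a
subspace `𝒬 ∋ 1` of `𝒫₁`, which contains all the `ξ_i` in `𝒫₁`, and which has a complement of
dimension at most `(r (D' + q choose q) + (D + q choose q)) (D + n choose n) - 2 n`, such that for all
`y_1, …, y_n ∈ 𝒬` every `z_j` which is a quotient `A(ξ, y) / B(ξ, y)` of polynomials with algebraic
coefficients and of degrees at most `D`, `D'` is a quotient `A'(ξ) / B'(ξ)` of polynomials of such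
degrees. For `D' = 0` these are the values of polynomials. In particular:

* `e` and `1/π` are not rational functions of degree at most `D` in `n` elements of a subspace of `𝒫₁` of
  codimension at most `4 (D + n choose n) - 2 n`, and `γ` is such a function only if it is algebraic;
* `1/π, 1/π², …, 1/π^J` are not polynomials of degree at most `D` in `n` elements of a subspace of `𝒫₁` of
  codimension at most `(D + J + 1) (D + n choose n) - 2 n` which contains `π`.

The proof. `𝒫₁` is contained in the space of the linear forms in `1` and in logarithms of algebraic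
numbers, and the theorem on subspaces of finite codimension of this space without algebraic relations
of bounded degree with coefficients in a space of finite dimension
(`Pool.Agent.Helper71.FC`, based on the hyperplane case of the linear subgroup theorem) is applied to
the relation `z_j B(ξ, Y) = A(ξ, Y)`.
-/

set_option autoImplicit false

open Module MvPolynomial

noncomputable section

namespace Pool.Agent.Results.MP_725b61_nt.FiniteCodimension

open Pool.Agent.HP778.KZ (periods1)

/-- The field of algebraic numbers. -/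
abbrev Qbar : IntermediateField ℚ ℂ := algebraicClosure ℚ ℂ

/-- `z` is the value at `v` of a quotient of polynomials with algebraic coefficients and of total
degrees at most `D` and `D'`. -/
def IsQuotient (D D' : ℕ) {σ : Type} (v : σ → ℂ) (z : ℂ) : Prop :=
  ∃ A B : MvPolynomial σ Qbar, A.totalDegree ≤ D ∧ B.totalDegree ≤ D' ∧ aeval v B ≠ 0 ∧
    z * aeval v B = aeval v A

/-- `𝒬` is a space of one-dimensional periods which contains `1` and has a complement of dimension at
most `c` in the space of all one-dimensional periods. -/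
def IsLarge (c : ℕ) (𝒬 : Submodule Qbar ℂ) : Prop :=
  (1 : ℂ) ∈ 𝒬 ∧ ∃ 𝒰 : Submodule Qbar ℂ, 𝒬 ⊔ 𝒰 = periods1 ∧ Module.Finite Qbar 𝒰 ∧
    finrank Qbar 𝒰 ≤ c

/-- Euler's constant -/
def γ : ℂ := (Real.eulerMascheroniConstant : ℂ)

/-- the general statement -/
theorem general (n D D' q r : ℕ) (hD : 2 ≤ D) (hD' : D' ≤ D) (ξ : Fin q → ℂ) (z : Fin r → ℂ) :
    ∃ 𝒬 : Submodule Qbar ℂ,
      IsLarge ((r * (D' + q).choose q + (D + q).choose q) * (D + n).choose n - 2 * n) 𝒬 ∧
      (∀ i, ξ i ∈ periods1 → ξ i ∈ 𝒬) ∧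
      ∀ y : Fin n → ℂ, (∀ i, y i ∈ 𝒬) → ∀ j, IsQuotient D D' (Sum.elim ξ y) (z j) →
        IsQuotient D D' ξ (z j) := by
  obtain ⟨𝒬, 𝒰, h1, h2, h3, h4, h5, h6⟩ :=
    Pool.Agent.Helper71.TF.per_main n D D' q r hD hD' ξ z
  refine ⟨𝒬, ⟨h1, 𝒰, h3, h4, h5⟩, h2, fun y hy j => ?_⟩
  rintro ⟨A, B, hA, hB, hB0, h⟩
  obtain ⟨g, hg, hg1, hg2⟩ := h6 y hy j A B hA hB hB0 h
  have hG1 : ∀ p, (Sum.elim X g p : MvPolynomial (Fin q) Qbar).totalDegree ≤ 1 := by
    rintro (p | i)
    · simp only [Sum.elim_inl]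
      rw [totalDegree_X]
    · exact hg i
  exact ⟨bind₁ (Sum.elim X g) A, bind₁ (Sum.elim X g) B,
    (Pool.Agent.W245.EB.totalDegree_bind_le _ hG1 A).trans hA,
    (Pool.Agent.W245.EB.totalDegree_bind_le _ hG1 B).trans hB, hg1, hg2⟩

theorem IsQuotient.inr {D D' : ℕ} {σ τ : Type} {ξ : σ → ℂ} {y : τ → ℂ} {z : ℂ}
    (h : IsQuotient D D' y z) : IsQuotient D D' (Sum.elim ξ y) z := by
  obtain ⟨A, B, hA, hB, hB0, h⟩ := h
  have key : ∀ P : MvPolynomial τ Qbar, aeval (Sum.elim ξ y) (rename Sum.inr P) = aeval y P :=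
    fun P => by
      rw [aeval_rename]
      rfl
  exact ⟨rename Sum.inr A, rename Sum.inr B, (totalDegree_rename_le _ _).trans hA,
    (totalDegree_rename_le _ _).trans hB, by rw [key]; exact hB0, by rw [key, key]; exact h⟩

/-- quotients without variables -/
theorem alg_of_empty {D D' : ℕ} {z : ℂ} (h : IsQuotient D D' (Fin.elim0 : Fin 0 → ℂ) z) :
    IsAlgebraic ℚ z := by
  obtain ⟨A, B, -, -, hB0, h⟩ := h
  obtain ⟨a, rfl⟩ := MvPolynomial.C_surjective (Fin 0) A
  obtain ⟨b, rfl⟩ := MvPolynomial.C_surjective (Fin 0) B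
  rw [aeval_C] at hB0
  rw [aeval_C, aeval_C] at h
  have h1 : z = algebraMap Qbar ℂ (a / b) := by
    rw [map_div₀]
    exact (eq_div_iff hB0).2 h
  rw [h1]
  exact mem_algebraicClosure_iff.1 (a / b).2

/-- negative powers of `π` are not polynomials in `π` -/
theorem pi_pow {D : ℕ} {b : ℕ} (hb : b ≠ 0)
    (h : IsQuotient D 0 (fun _ : Fin 1 => (Real.pi : ℂ)) ((Real.pi : ℂ) ^ b)⁻¹) : False := by
  have hq : Algebra.IsAlgebraic ℚ Qbar := algebraicClosure.isAlgebraic ℚ ℂ
  have hind : AlgebraicIndependent Qbar (fun _ : Fin 1 => (Real.pi : ℂ)) := by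
    rw [algebraicIndependent_unique_type_iff]
    intro halg
    exact Pool.Agent.H340R2.LW.transcendental_pi_complex (halg.restrictScalars ℚ)
  have hπ : (Real.pi : ℂ) ≠ 0 := by exact_mod_cast Real.pi_ne_zero
  obtain ⟨A, B, -, hB, hB0, h⟩ := h
  obtain ⟨c, rfl⟩ : ∃ c, B = C c := ⟨_, (totalDegree_eq_zero_iff_eq_C.1 (Nat.le_zero.1 hB))⟩
  have h1 : X 0 ^ b * A - C c = 0 := by
    refine (injective_iff_map_eq_zero _).1 hind _ ?_
    rw [map_sub, map_mul, map_pow, aeval_X, ← h, mul_inv_cancel_left₀ (pow_ne_zero _ hπ), sub_self]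
  have h2 := congrArg (aeval (fun _ : Fin 1 => (0 : Qbar))) h1
  rw [map_sub, map_mul, map_pow, aeval_X, aeval_C, map_zero, zero_pow hb, zero_mul, zero_sub] at h2
  apply hB0
  rw [aeval_C]
  have h3 : c = 0 := neg_eq_zero.1 h2
  rw [h3, map_zero]

/-- **Main result.** -/
theorem result :
    -- no new numbers from one-dimensional periods in a subspace of finite codimension
    (∀ n D D' q r : ℕ, 2 ≤ D → D' ≤ D → ∀ (ξ : Fin q → ℂ) (z : Fin r → ℂ),
      ∃ 𝒬 : Submodule Qbar ℂ,
        IsLarge ((r * (D' + q).choose q + (D + q).choose q) * (D + n).choose n - 2 * n) 𝒬 ∧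
        (∀ i, ξ i ∈ periods1 → ξ i ∈ 𝒬) ∧
        ∀ y : Fin n → ℂ, (∀ i, y i ∈ 𝒬) → ∀ j, IsQuotient D D' (Sum.elim ξ y) (z j) →
          IsQuotient D D' ξ (z j)) ∧
    -- rational functions, and the numbers `e`, `1/π`, `γ`
    (∀ n D : ℕ, 2 ≤ D → ∃ 𝒬 : Submodule Qbar ℂ, IsLarge (4 * (D + n).choose n - 2 * n) 𝒬 ∧
      ∀ y : Fin n → ℂ, (∀ i, y i ∈ 𝒬) →
        ¬ IsQuotient D D y (Complex.exp 1) ∧ ¬ IsQuotient D D y (1 / (Real.pi : ℂ)) ∧
        (IsQuotient D D y γ → IsAlgebraic ℚ γ)) ∧
    -- polynomials in `π` and other one-dimensional periods, and the negative powers of `π`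
    (∀ n D J : ℕ, 2 ≤ D → ∃ 𝒬 : Submodule Qbar ℂ,
      IsLarge ((D + J + 1) * (D + n).choose n - 2 * n) 𝒬 ∧ (Real.pi : ℂ) ∈ 𝒬 ∧
      ∀ y : Fin n → ℂ, (∀ i, y i ∈ 𝒬) → ∀ b, 1 ≤ b → b ≤ J →
        ¬ IsQuotient D 0 y (1 / (Real.pi : ℂ) ^ b)) := by
  refine ⟨fun n D D' q r hD hD' ξ z => general n D D' q r hD hD' ξ z, ?_, ?_⟩
  · intro n D hD
    obtain ⟨𝒬, h1, -, h2⟩ := general n D D 0 3 hD le_rfl Fin.elim0
      ![Complex.exp 1, 1 / (Real.pi : ℂ), γ]
    have h3 : (3 * (D + 0).choose 0 + (D + 0).choose 0) = 4 := by simp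
    rw [h3] at h1
    refine ⟨𝒬, h1, fun y hy => ⟨fun h => ?_, fun h => ?_, fun h => ?_⟩⟩
    · exact Pool.Agent.H340R2.LW.transcendental_exp_one_complex
        (alg_of_empty (h2 y hy 0 (IsQuotient.inr h)))
    · have h4 := alg_of_empty (h2 y hy 1 (IsQuotient.inr h))
      have h5 : IsAlgebraic ℚ (Real.pi : ℂ) := by
        have h6 := h4.inv
        have h7 : (![Complex.exp 1, 1 / (Real.pi : ℂ), γ] 1)⁻¹ = (Real.pi : ℂ) := by
          simp
        rwa [h7] at h6
      exact Pool.Agent.H340R2.LW.transcendental_pi_complex h5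
    · exact alg_of_empty (h2 y hy 2 (IsQuotient.inr h))
  · intro n D J hD
    obtain ⟨𝒬, h1, h0, h2⟩ := general n D 0 1 J hD (Nat.zero_le _) (fun _ => (Real.pi : ℂ))
      (fun j => ((Real.pi : ℂ) ^ (j.1 + 1))⁻¹)
    have h3 : (J * (0 + 1).choose 1 + (D + 1).choose 1) = D + J + 1 := by
      simp only [zero_add, Nat.choose_one_right]
      ring
    rw [h3] at h1
    refine ⟨𝒬, h1, h0 0 Pool.Agent.Results.MP_725b61_nt.InverseOfPi.pi_mem, fun y hy b hb hbJ h => ?_⟩
    have h4 := h2 y hy ⟨b - 1, by omega⟩ (by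
      have h5 : b - 1 + 1 = b := by omega
      simp only [h5]
      rw [one_div] at h
      exact IsQuotient.inr h)
    have h5 : b - 1 + 1 = b := by omega
    simp only [h5] at h4
    exact pi_pow (by omega) h4

end Pool.Agent.Results.MP_725b61_nt.FiniteCodimension
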