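import Mathlib
import Pool.Agent.Helper71.TF.Dec
import Pool.Graph.R_pool_sql_team_seeded_b0a926ef.Results.MP_725b61_nt.InverseOfPi

/-!
# `e`, `1/π`, Euler's constant and polynomials in arbitrarily many periods of dimension one

Let `𝒫₁` be the space of the periods of dimension one: all linear combinations with algebraic
coefficients of absolutely convergent integrals `∫_σ R(x) dx`, where `R` is a rational function of one
variable with algebraic coefficients and `σ ⊆ ℝ` is given by polynomial inequalities with algebraic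
coefficients (`periods1` in the starting library). It has infinite dimension over the field `ℚ̄` of
algebraic numbers. All polynomials with algebraic coefficients in elements of `𝒫₁` and in arbitrary
periods `ξ_1, …, ξ_q` are periods. Already for the polynomials in elements of `𝒫₁` it is not known whether
`e`, `1/π` or `γ` is among them. We show that `𝒫₁` is the direct sum of a space of finite dimension and of
`m + 1` infinite dimensional spaces, such that no new numbers arise, in any bounded degree and in **any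
number of variables**, if the elements are taken from the sum of any `m` of them.

More precisely, let `z_1, …, z_r` (for instance `e, 1/π, γ`) and `ξ_1, …, ξ_q` (for instance the periods
of some varieties) be arbitrary complex numbers, and `D, m` natural numbers. Let `V` be the space of the
elements of `𝒫₁` which are linear combinations of `1, ξ_1, …, ξ_q`. There is a decomposition

  `𝒫₁ = V ⊕ T_0 ⊕ ⋯ ⊕ T_m`

with infinite dimensional `T_i`, such that for every `j`, for **all** `n` and all elements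
`y_1, …, y_n` of `V ⊕ ⨁_(i ≠ j) T_i` every `z_l` which is a quotient `A(ξ, y) / B(ξ, y)` of polynomials
with algebraic coefficients and of degrees `≤ D₁`, `≤ D₂`, where `D₁, D₂ ≤ D`, is a quotient
`A'(ξ) / B'(ξ)` of polynomials of such degrees. For `D₂ = 0` these are the values of polynomials.
In particular:

* `𝒫₁ = ℚ̄ ⊕ T_0 ⊕ ⋯ ⊕ T_m` such that for all `n` the numbers `e` and `1/π` are not rational functions of
  degree at most `D` in `n` elements of `ℚ̄ ⊕ ⨁_(i ≠ j) T_i`, and `γ` is such a function only if it is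
  algebraic;
* `𝒫₁ = ℚ̄ ⊕ ℚ̄ π ⊕ T_0 ⊕ ⋯ ⊕ T_m` such that for all `n` the numbers `1/π, 1/π², …, 1/π^J` are not
  polynomials of degree at most `D` in `n` elements of `ℚ̄ ⊕ ℚ̄ π ⊕ ⨁_(i ≠ j) T_i`.

The proof. `𝒫₁` is contained in the space of the linear forms in `1` and in logarithms of algebraic
numbers. The `T_i` are unions of increasing sequences of finite dimensional spaces: an element `τ` of
`𝒫₁` is added to their sum by writing `τ = τ_0 + ⋯ + τ_m`, where `τ_1, …, τ_m` satisfy no relation of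
degree at most `2 D + 1` over the field generated by all numbers considered so far. This is possible by
the theorem on subspaces of finite codimension of `Pool.Agent.Helper71.FC` (based on the hyperplane
case of the linear subgroup theorem).
-/

set_option autoImplicit false

open Module MvPolynomial

noncomputable section

namespace Pool.Agent.Results.MP_725b61_nt.GoodDecompositions

open Pool.Agent.HP778.KZ (periods1)

/-- The field of algebraic numbers. -/
abbrev Qbar : IntermediateField ℚ ℂ := algebraicClosure ℚ ℂ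

/-- `z` is the value at `v` of a quotient of polynomials with algebraic coefficients and of total
degrees at most `D₁` and `D₂`. -/
def IsQuotient (D₁ D₂ : ℕ) {σ : Type} (v : σ → ℂ) (z : ℂ) : Prop :=
  ∃ A B : MvPolynomial σ Qbar, A.totalDegree ≤ D₁ ∧ B.totalDegree ≤ D₂ ∧ aeval v B ≠ 0 ∧
    z * aeval v B = aeval v A

/-- `S` is the direct sum of `V` and of the infinite dimensional spaces `T_0, …, T_m`. -/
structure IsDirectSum (S V : Submodule Qbar ℂ) {m : ℕ} (T : Fin (m + 1) → Submodule Qbar ℂ) :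
    Prop where
  sum : V ⊔ ⨆ i, T i = S
  unique : ∀ v ∈ V, ∀ t : Fin (m + 1) → ℂ, (∀ i, t i ∈ T i) → v + ∑ i, t i = 0 → v = 0 ∧ t = 0
  infinite : ∀ i, ¬ Module.Finite Qbar (T i)

/-- The sum of `V` and of the `T_i`, `i ≠ j`. -/
def without (V : Submodule Qbar ℂ) {m : ℕ} (T : Fin (m + 1) → Submodule Qbar ℂ) (j : Fin (m + 1)) :
    Submodule Qbar ℂ :=
  V ⊔ ⨆ i : {i // i ≠ j}, T i

/-- The one-dimensional periods which are linear combinations of `1` and of the `ξ_i`. -/
def known {q : ℕ} (ξ : Fin q → ℂ) : Submodule Qbar ℂ :=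
  Submodule.span Qbar (insert 1 (Set.range ξ)) ⊓ periods1

/-- Euler's constant -/
def γ : ℂ := (Real.eulerMascheroniConstant : ℂ)

/-- the general statement -/
theorem general (D m q r : ℕ) (ξ : Fin q → ℂ) (z : Fin r → ℂ) :
    ∃ T : Fin (m + 1) → Submodule Qbar ℂ, IsDirectSum periods1 (known ξ) T ∧
      ∀ (j : Fin (m + 1)) (n : ℕ) (y : Fin n → ℂ), (∀ i, y i ∈ without (known ξ) T j) →
        ∀ (l : Fin r) (D₁ D₂ : ℕ), D₁ ≤ D → D₂ ≤ D → IsQuotient D₁ D₂ (Sum.elim ξ y) (z l) →
          IsQuotient D₁ D₂ ξ (z l) := by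
  obtain ⟨T, h1, h2, h3, h4⟩ := Pool.Agent.Helper71.TF.per_dec m (D + 1) q r (by omega) ξ z
  refine ⟨T, ⟨h1, h2, h3⟩, fun j n y hy l D₁ D₂ hD₁ hD₂ => ?_⟩
  rintro ⟨A, B, hA, hB, hB0, h⟩
  obtain ⟨g, hg, hg1, hg2⟩ := h4 j n y hy l A B (by omega) (by omega) hB0 h
  have hG1 : ∀ p, (Sum.elim X g p : MvPolynomial (Fin q) Qbar).totalDegree ≤ 1 := by
    rintro (p | i)
    · simp only [Sum.elim_inl]
      rw [totalDegree_X]
    · exact hg i
  exact ⟨bind₁ (Sum.elim X g) A, bind₁ (Sum.elim X g) B,
    (Pool.Agent.W245.EB.totalDegree_bind_le _ hG1 A).trans hA,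
    (Pool.Agent.W245.EB.totalDegree_bind_le _ hG1 B).trans hB, hg1, hg2⟩

theorem IsQuotient.inr {D D' : ℕ} {σ τ : Type} {ξ : σ → ℂ} {y : τ → ℂ} {z : ℂ}
    (h : IsQuotient D D' y z) : IsQuotient D D' (Sum.elim ξ y) z := by
  obtain ⟨A, B, hA, hB, hB0, h⟩ := h
  have key : ∀ P : MvPolynomial τ Qbar, aeval (Sum.elim ξ y) (rename Sum.inr P) = aeval y P :=
    fun P => by
      rw [aeval_rename]
      rfl
  exact ⟨rename Sum.inr A, rename Sum.inr B, (totalDegree_rename_le _ _).trans hA,
    (totalDegree_rename_le _ _).trans hB, by rw [key]; exact hB0, by rw [key, key]; exact h⟩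

/-- quotients without variables -/
theorem alg_of_empty {D D' : ℕ} {z : ℂ} (h : IsQuotient D D' (Fin.elim0 : Fin 0 → ℂ) z) :
    IsAlgebraic ℚ z := by
  obtain ⟨A, B, -, -, hB0, h⟩ := h
  obtain ⟨a, rfl⟩ := MvPolynomial.C_surjective (Fin 0) A
  obtain ⟨b, rfl⟩ := MvPolynomial.C_surjective (Fin 0) B
  rw [aeval_C] at hB0
  rw [aeval_C, aeval_C] at h
  have h1 : z = algebraMap Qbar ℂ (a / b) := by
    rw [map_div₀]
    exact (eq_div_iff hB0).2 h
  rw [h1]
  exact mem_algebraicClosure_iff.1 (a / b).2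

/-- negative powers of `π` are not polynomials in `π` -/
theorem pi_pow {D : ℕ} {b : ℕ} (hb : b ≠ 0)
    (h : IsQuotient D 0 (fun _ : Fin 1 => (Real.pi : ℂ)) ((Real.pi : ℂ) ^ b)⁻¹) : False := by
  have hq : Algebra.IsAlgebraic ℚ Qbar := algebraicClosure.isAlgebraic ℚ ℂ
  have hind : AlgebraicIndependent Qbar (fun _ : Fin 1 => (Real.pi : ℂ)) := by
    rw [algebraicIndependent_unique_type_iff]
    intro halg
    exact Pool.Agent.H340R2.LW.transcendental_pi_complex (halg.restrictScalars ℚ)
  have hπ : (Real.pi : ℂ) ≠ 0 := by exact_mod_cast Real.pi_ne_zero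
  obtain ⟨A, B, -, hB, hB0, h⟩ := h
  obtain ⟨c, rfl⟩ : ∃ c, B = C c := ⟨_, (totalDegree_eq_zero_iff_eq_C.1 (Nat.le_zero.1 hB))⟩
  have h1 : X 0 ^ b * A - C c = 0 := by
    refine (injective_iff_map_eq_zero _).1 hind _ ?_
    rw [map_sub, map_mul, map_pow, aeval_X, ← h, mul_inv_cancel_left₀ (pow_ne_zero _ hπ), sub_self]
  have h2 := congrArg (aeval (fun _ : Fin 1 => (0 : Qbar))) h1
  rw [map_sub, map_mul, map_pow, aeval_X, aeval_C, map_zero, zero_pow hb, zero_mul, zero_sub] at h2
  apply hB0
  rw [aeval_C]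
  have h3 : c = 0 := neg_eq_zero.1 h2
  rw [h3, map_zero]

theorem one_mem : (1 : ℂ) ∈ periods1 := by
  apply Submodule.subset_span
  refine ⟨1, 1, Set.Ioo 0 1, one_ne_zero,
    Pool.Agent.HP778.KZ.semiAlg_Ioo isAlgebraic_zero isAlgebraic_one, ?_, ?_⟩
  · simp only [map_one, div_one]
    exact (continuous_const.integrableOn_Icc (a := (0:ℝ)) (b := 1)).mono_set Set.Ioo_subset_Icc_self
  · simp

theorem known_zero : known (Fin.elim0 : Fin 0 → ℂ) = Submodule.span Qbar {1} := by
  unfold known
  rw [Set.range_eq_empty, insert_empty_eq]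
  exact inf_eq_left.2 ((Submodule.span_singleton_le_iff_mem _ _).2 one_mem)

theorem known_pi : known (fun _ : Fin 1 => (Real.pi : ℂ)) =
    Submodule.span Qbar {1, (Real.pi : ℂ)} := by
  unfold known
  rw [Set.range_const]
  refine inf_eq_left.2 (Submodule.span_le.2 ?_)
  rintro _ (rfl | rfl)
  · exact one_mem
  · exact Pool.Agent.Results.MP_725b61_nt.InverseOfPi.pi_mem

/-- **Main result.** -/
theorem result :
    -- no new numbers from polynomials in one-dimensional periods which avoid one summand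
    (∀ (D m q r : ℕ) (ξ : Fin q → ℂ) (z : Fin r → ℂ),
      ∃ T : Fin (m + 1) → Submodule Qbar ℂ, IsDirectSum periods1 (known ξ) T ∧
        ∀ (j : Fin (m + 1)) (n : ℕ) (y : Fin n → ℂ), (∀ i, y i ∈ without (known ξ) T j) →
          ∀ (l : Fin r) (D₁ D₂ : ℕ), D₁ ≤ D → D₂ ≤ D → IsQuotient D₁ D₂ (Sum.elim ξ y) (z l) →
            IsQuotient D₁ D₂ ξ (z l)) ∧
    -- rational functions, and the numbers `e`, `1/π`, `γ`
    (∀ D m : ℕ, ∃ T : Fin (m + 1) → Submodule Qbar ℂ,
      IsDirectSum periods1 (Submodule.span Qbar {1}) T ∧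
      ∀ (j : Fin (m + 1)) (n : ℕ) (y : Fin n → ℂ),
        (∀ i, y i ∈ without (Submodule.span Qbar {1}) T j) →
        ¬ IsQuotient D D y (Complex.exp 1) ∧ ¬ IsQuotient D D y (1 / (Real.pi : ℂ)) ∧
        (IsQuotient D D y γ → IsAlgebraic ℚ γ)) ∧
    -- polynomials in `π` and other one-dimensional periods, and the negative powers of `π`
    (∀ D m J : ℕ, ∃ T : Fin (m + 1) → Submodule Qbar ℂ,
      IsDirectSum periods1 (Submodule.span Qbar {1, (Real.pi : ℂ)}) T ∧
      ∀ (j : Fin (m + 1)) (n : ℕ) (y : Fin n → ℂ),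
        (∀ i, y i ∈ without (Submodule.span Qbar {1, (Real.pi : ℂ)}) T j) →
        ∀ b, 1 ≤ b → b ≤ J → ¬ IsQuotient D 0 y (1 / (Real.pi : ℂ) ^ b)) := by
  refine ⟨fun D m q r ξ z => general D m q r ξ z, ?_, ?_⟩
  · intro D m
    obtain ⟨T, h1, h2⟩ := general D m 0 3 Fin.elim0 ![Complex.exp 1, 1 / (Real.pi : ℂ), γ]
    rw [known_zero] at h1 h2
    refine ⟨T, h1, fun j n y hy => ⟨fun h => ?_, fun h => ?_, fun h => ?_⟩⟩
    · exact Pool.Agent.H340R2.LW.transcendental_exp_one_complex
        (alg_of_empty (h2 j n y hy 0 D D le_rfl le_rfl (IsQuotient.inr h)))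
    · have h4 := alg_of_empty (h2 j n y hy 1 D D le_rfl le_rfl (IsQuotient.inr h))
      have h5 : IsAlgebraic ℚ (Real.pi : ℂ) := by
        have h6 := h4.inv
        have h7 : (![Complex.exp 1, 1 / (Real.pi : ℂ), γ] 1)⁻¹ = (Real.pi : ℂ) := by
          simp
        rwa [h7] at h6
      exact Pool.Agent.H340R2.LW.transcendental_pi_complex h5
    · exact alg_of_empty (h2 j n y hy 2 D D le_rfl le_rfl (IsQuotient.inr h))
  · intro D m J
    obtain ⟨T, h1, h2⟩ := general D m 1 J (fun _ => (Real.pi : ℂ))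
      (fun j => ((Real.pi : ℂ) ^ (j.1 + 1))⁻¹)
    rw [known_pi] at h1 h2
    refine ⟨T, h1, fun j n y hy b hb hbJ h => ?_⟩
    have h4 := h2 j n y hy ⟨b - 1, by omega⟩ D 0 le_rfl (Nat.zero_le _) (by
      have h5 : b - 1 + 1 = b := by omega
      simp only [h5]
      rw [one_div] at h
      exact IsQuotient.inr h)
    have h5 : b - 1 + 1 = b := by omega
    simp only [h5] at h4
    exact pi_pow (by omega) h4

end Pool.Agent.Results.MP_725b61_nt.GoodDecompositions
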