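import Pool.Agent.Helper8.OT.Two

/-!
# The real periods and the volumes of the realization spaces of uniform oriented matroids of rank three

Consider `n` points of the plane together with four further elements, a projective frame: the directions of the two
axes, the origin and the point `(1, 1)`. The orientations of all triples of the `n + 4` elements (for three points: the
orientation of the triangle; with the directions: the order of the first or second coordinates of two points) form the
chirotope of the configuration, an oriented matroid of rank three (order type). It is uniform if no orientation of three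
different elements is zero. The realization space of a chirotope is the set of all configurations in `(ℝ²)ⁿ` with this
chirotope. By Mnëv's theorem the realization spaces of uniform oriented matroids of rank three are as complicated as
arbitrary open semialgebraic sets, up to stable equivalence.

**Theorem (universality for periods).** For a real number the following are equivalent. (1) It is a period, in the form
of the frozen statement. (2) It is an integral multiple of the difference of two finite volumes of sets of configurations,
each given by prescribed orientations of some triples. (3) It is an integer linear combination of finite volumes of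
realization spaces of uniform oriented matroids of rank three. So `e` (or `1 / π`, or Euler's constant) is a period if and
only if it has one of these two forms.

The proof builds on the theorem of the library that the group of the real periods is generated by the volumes of the
regions given by polynomial inequalities in the positive orthants (`Q54.KZ`). New is the passage to configurations. The
variables are represented by the slopes of the lines through the origin and points in a strip (a slope is uniformly
distributed). A polynomial is evaluated exactly by a word in the affine maps given by lines through the origin and lines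
through `(1, 1)`: commutators of such maps are translations. Each step of the word introduces new points with one sided
noise by a volume preserving shear; the volume of the set of all possible noises is a truncated power of the polynomial
divided by a monomial in the slopes of the lines (`Pool.Agent.Helper8.OT.V_eq`). Areas of triangles produce the monomials,
one more point produces the reciprocal of the polynomial, and so one arrives at the indicator function of the set where
the polynomial is positive (`Pool.Agent.Helper8.OT.isT'_ind`).
-/

set_option autoImplicit false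

namespace Pool.Agent.Results.MP_725b61_nt.RealizationSpaceVolumes

/-- The vectors of a configuration: `(x, y, 1)` for each of the `n` points `(x, y)`, and the four vectors `(1, 0, 0)`,
`(0, 1, 0)`, `(0, 0, 1)`, `(1, 1, 1)` of the frame. -/
def vec {n : ℕ} (p : Fin n → ℝ × ℝ) : Fin n ⊕ Fin 4 → Fin 3 → ℝ :=
  Sum.elim (fun i => ![(p i).1, (p i).2, 1]) ![![1, 0, 0], ![0, 1, 0], ![0, 0, 1], ![1, 1, 1]]

/-- The orientation of three elements: the sign of the determinant of their vectors. -/
noncomputable def orientation {n : ℕ} (p : Fin n → ℝ × ℝ) (a b c : Fin n ⊕ Fin 4) : SignType :=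
  SignType.sign (Matrix.det (Matrix.of ![vec p a, vec p b, vec p c]))

/-- The realization space of `χ`: all configurations of `n` points for which `χ` is the orientation of all triples. -/
def RealizationSpace {n : ℕ} (χ : Fin n ⊕ Fin 4 → Fin n ⊕ Fin 4 → Fin n ⊕ Fin 4 → SignType) : Set (Fin n → ℝ × ℝ) :=
  {p | ∀ a b c, orientation p a b c = χ a b c}

/-- All configurations of `n` points for which the triples in `S` are positively oriented. -/
def Configurations {n : ℕ} (S : Set ((Fin n ⊕ Fin 4) × (Fin n ⊕ Fin 4) × (Fin n ⊕ Fin 4))) : Set (Fin n → ℝ × ℝ) :=
  {p | ∀ t ∈ S, orientation p t.1 t.2.1 t.2.2 = 1}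

/-- `χ` is uniform: it is not zero for three different elements. -/
def Uniform {n : ℕ} (χ : Fin n ⊕ Fin 4 → Fin n ⊕ Fin 4 → Fin n ⊕ Fin 4 → SignType) : Prop :=
  ∀ a b c, a ≠ b → b ≠ c → a ≠ c → χ a b c ≠ 0

/-- The finite volumes of the realization spaces of uniform oriented matroids of rank three. -/
def Volumes : Set ℝ :=
  {v | ∃ (n : ℕ) (χ : Fin n ⊕ Fin 4 → Fin n ⊕ Fin 4 → Fin n ⊕ Fin 4 → SignType), Uniform χ ∧
    MeasureTheory.volume (RealizationSpace χ) ≠ ⊤ ∧ v = (MeasureTheory.volume (RealizationSpace χ)).toReal}

open Pool.Agent.Helper8.OT in
lemma det_eq {n : ℕ} (p : Fin n → ℝ × ℝ) (a b c : Fin n ⊕ Fin 4) :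
    Matrix.det (Matrix.of ![vec p a, vec p b, vec p c]) = D p a b c := by
  have h : ∀ a : Fin n ⊕ Fin 4, vec p a 0 = cx p a ∧ vec p a 1 = cy p a ∧ vec p a 2 = cz p a := by
    rintro (i | k)
    · exact ⟨rfl, rfl, rfl⟩
    · fin_cases k <;> exact ⟨rfl, rfl, rfl⟩
  rw [Matrix.det_fin_three]
  simp only [Matrix.of_apply, Matrix.cons_val_zero, Matrix.cons_val_one, Matrix.cons_val_two, Matrix.head_cons,
    Matrix.tail_cons, h, D]
  ring

lemma volumes_eq : Volumes = Pool.Agent.Helper8.OT.uvols := by
  have h : ∀ {n : ℕ} (χ : Fin n ⊕ Fin 4 → Fin n ⊕ Fin 4 → Fin n ⊕ Fin 4 → SignType),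
      RealizationSpace χ = Pool.Agent.Helper8.OT.real χ := by
    intro n χ
    ext p
    simp only [RealizationSpace, orientation, det_eq]
    rfl
  ext v
  simp only [Volumes, Pool.Agent.Helper8.OT.uvols, h]
  rfl

lemma configurations_eq {n : ℕ} (S : List ((Fin n ⊕ Fin 4) × (Fin n ⊕ Fin 4) × (Fin n ⊕ Fin 4))) :
    Configurations {t | t ∈ S} = Pool.Agent.Helper8.OT.reg S := by
  ext p
  simp only [Configurations, Pool.Agent.Helper8.OT.reg, orientation, det_eq, Set.mem_ofPred_eq, sign_eq_one_iff]
  rfl

/-- **The real periods and the volumes of spaces of configurations.** The following are equivalent for a real number `x`: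
(1) `x` is a period; (2) `x` is an integral multiple of the difference of two finite volumes of sets of configurations
given by the orientations of some triples; (3) `x` is an integer linear combination of finite volumes of realization
spaces of uniform oriented matroids of rank three. -/
theorem result (x : ℝ) : List.TFAE [
    ∃ (k : ℕ) (n m : Fin k → ℕ)
        (p : ∀ j : Fin k, Fin (m j) → MvPolynomial (Fin (n j)) ℚ)
        (P Q : ∀ j : Fin k, MvPolynomial (Fin (n j)) ℚ),
        (∀ j : Fin k,
          MeasureTheory.IntegrableOn
            (fun y : Fin (n j) → ℝ => (MvPolynomial.aeval y (P j) / MvPolynomial.aeval y (Q j) : ℝ))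
            {y : Fin (n j) → ℝ | ∀ i, 0 ≤ (MvPolynomial.aeval y (p j i) : ℝ)}) ∧
        x = ∑ j : Fin k,
          ∫ y in {y : Fin (n j) → ℝ | ∀ i, 0 ≤ (MvPolynomial.aeval y (p j i) : ℝ)},
            (MvPolynomial.aeval y (P j) / MvPolynomial.aeval y (Q j) : ℝ),
    ∃ (N n n' : ℕ) (S : Set ((Fin n ⊕ Fin 4) × (Fin n ⊕ Fin 4) × (Fin n ⊕ Fin 4)))
        (S' : Set ((Fin n' ⊕ Fin 4) × (Fin n' ⊕ Fin 4) × (Fin n' ⊕ Fin 4))),
        MeasureTheory.volume (Configurations S) ≠ ⊤ ∧ MeasureTheory.volume (Configurations S') ≠ ⊤ ∧
        x = N * ((MeasureTheory.volume (Configurations S)).toReal - (MeasureTheory.volume (Configurations S')).toReal),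
    x ∈ AddSubgroup.closure Volumes] := by
  rw [volumes_eq, ← Pool.Agent.Helper8.OT.closure_eq]
  tfae_have 1 → 3 := by
    rintro ⟨k, n, m, p, P, Q, h1, rfl⟩
    exact AddSubgroup.sum_mem _ fun j _ => Q54.KZ.IsPer.mem ⟨n j, m j, p j, P j, Q j, h1 j, rfl⟩
  tfae_have 3 → 1 := by
    intro h5
    obtain ⟨l, h6, h7⟩ := (Q54.KZ.mem_iff _).1 h5
    rw [← h7]
    choose n' k' p' P' Q' h8 h9 using fun j : Fin l.length => h6 (l.get j) (List.get_mem l j)
    refine ⟨l.length, n', k', p', P', Q', h8, ?_⟩
    rw [← Finset.sum_congr rfl fun j _ => h9 j]
    exact (Fin.sum_univ_getElem l).symm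
  tfae_have 3 → 2 := by
    intro h
    obtain ⟨N, n, n', S, S', h1, h2, h3⟩ := Pool.Agent.Helper8.OT.exists_two h
    refine ⟨N, n, n', {t | t ∈ S}, {t | t ∈ S'}, ?_⟩
    rw [configurations_eq, configurations_eq]
    exact ⟨h1, h2, h3⟩
  tfae_have 2 → 3 := by
    rintro ⟨N, n, n', S, S', h1, h2, rfl⟩
    have h3 : ∀ {n : ℕ} (S : Set ((Fin n ⊕ Fin 4) × (Fin n ⊕ Fin 4) × (Fin n ⊕ Fin 4))),
        MeasureTheory.volume (Configurations S) ≠ ⊤ →
          (MeasureTheory.volume (Configurations S)).toReal ∈ AddSubgroup.closure Q54.KZ.vols := by
      intro n S h
      have h4 : S = {t | t ∈ S.toFinite.toFinset.toList} := by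
        ext t
        simp
      rw [h4, configurations_eq] at h ⊢
      exact Pool.Agent.Helper8.OT.reg_mem _ h
    rw [← nsmul_eq_mul]
    exact AddSubgroup.nsmul_mem _ (AddSubgroup.sub_mem _ (h3 S h1) (h3 S' h2)) N
  tfae_finish

end Pool.Agent.Results.MP_725b61_nt.RealizationSpaceVolumes
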